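import Mathlib

/-!
# The Hasse principle for almost all diagonal conic bundles (project DC, helper718)

Definitions and statements of the parts. The whole proof is described in the subtasks.
-/

set_option autoImplicit false
set_option linter.all false

namespace Pool.Agent.N718.DC

open Finset

/-! ### Weights and linear forms -/

/-- `log p` at the positive primes, zero elsewhere. -/
noncomputable def lam (n : ℤ) : ℝ := if 0 < n ∧ n.natAbs.Prime then Real.log (n : ℝ) else 0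

/-- The indicator function of the positive integers. -/
noncomputable def pos (n : ℤ) : ℝ := if 0 < n then 1 else 0

/-- The value `s (L (q b₀ + y b₁) + r)`. -/
def G (s : ℤ) (L q : ℕ) (y r : ℤ) (b : ℤ × ℤ) : ℤ := s * ((L : ℤ) * ((q : ℤ) * b.1 + y * b.2) + r)

/-- `m / φ(m)` -/
noncomputable def rt (m : ℕ) : ℝ := (m : ℝ) / (Nat.totient m : ℝ)

/-- The box `[u₀, v₀] × [u₁, v₁]`. -/
noncomputable def bx (u v : ℤ × ℤ) : Finset (ℤ × ℤ) := Icc u.1 v.1 ×ˢ Icc u.2 v.2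

/-- The box lies in `[-H, H]²`. -/
def inbox (H : ℕ) (u v : ℤ × ℤ) : Prop :=
  -(H : ℤ) ≤ u.1 ∧ u.1 ≤ v.1 + 1 ∧ v.1 ≤ H ∧ -(H : ℤ) ≤ u.2 ∧ u.2 ≤ v.2 + 1 ∧ v.2 ≤ H

/-- Part SW: Siegel-Walfisz. -/
def S_SW : Prop := ∀ κ A : ℕ, ∃ X₀ : ℕ, ∀ X : ℕ, X₀ ≤ X → ∀ Q : ℕ, 1 ≤ Q →
  (Q : ℝ) ≤ Real.log X ^ κ → ∀ c : ℤ, IsCoprime c (Q : ℤ) → ∀ u v : ℤ, -(X : ℤ) ≤ u → u ≤ v → v ≤ X →
  |∑ n ∈ (Ioc u v).filter (fun n => (Q : ℤ) ∣ n - c), lam n -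
    (1 / (Nat.totient Q : ℝ)) * ∑ n ∈ Ioc u v, pos n| ≤ X / Real.log X ^ A

open Classical in
/-- Part LIN: sums of `lam` over progressions. -/
def S_LIN : Prop := ∀ κ A : ℕ, ∃ X₀ : ℕ, ∀ X : ℕ, X₀ ≤ X → ∀ m : ℕ, 1 ≤ m →
  (m : ℝ) ≤ Real.log X ^ κ → ∀ c k₁ k₂ : ℤ, (∀ k ∈ Icc k₁ k₂, |c + m * k| ≤ X) →
  |∑ k ∈ Icc k₁ k₂, lam (c + m * k) -
    rt m * (if IsCoprime c (m : ℤ) then ∑ k ∈ Icc k₁ k₂, pos (c + m * k) else 0)| ≤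
      X / Real.log X ^ A

/-- The hypotheses on the parameters of a pair of linear forms. -/
structure Hyp (κ H : ℕ) (s : ℤ) (L q : ℕ) (y y' r r' : ℤ) : Prop where
  hs : s = 1 ∨ s = -1
  hL : 1 ≤ L
  hL' : (L : ℝ) ≤ Real.log H ^ κ
  hq : 1 ≤ q
  hq' : (q : ℝ) ≤ Real.log H ^ κ
  hy : |(y : ℝ)| ≤ Real.log H ^ κ
  hy' : |(y' : ℝ)| ≤ Real.log H ^ κ
  hr : |(r : ℝ)| ≤ H * Real.log H ^ κ
  hr' : |(r' : ℝ)| ≤ H * Real.log H ^ κ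
  ne : y ≠ y'
  co : IsCoprime r (L : ℤ)
  co' : IsCoprime r' (L : ℤ)
  gy : ∀ p : ℕ, p.Prime → p ∣ q → (p : ℤ) ∣ y → p ∣ L
  gy' : ∀ p : ℕ, p.Prime → p ∣ q → (p : ℤ) ∣ y' → p ∣ L

open Classical in
/-- Part PAIR: prime values of two linear forms in two variables. -/
def S_PAIR : Prop := ∀ κ A : ℕ, ∃ H₀ : ℕ, ∀ H : ℕ, H₀ ≤ H →
  ∀ (s : ℤ) (L q : ℕ) (y y' r r' : ℤ), Hyp κ H s L q y y' r r' → ∀ u v : ℤ × ℤ, inbox H u v →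
  |∑ b ∈ bx u v, lam (G s L q y r b) * lam (G s L q y' r' b) -
    rt (L * q * (y - y').natAbs) ^ 2 * ∑ b ∈ bx u v,
      (if IsCoprime (G s L q y r b * G s L q y' r' b) ((L * q * (y - y').natAbs : ℕ) : ℤ) then
        pos (G s L q y r b) * pos (G s L q y' r' b) else 0)| ≤ (H : ℝ) ^ 2 / Real.log H ^ A

open Classical in
/-- Part SINGLE: prime values of one linear form in two variables. -/
def S_SINGLE : Prop := ∀ κ A : ℕ, ∃ H₀ : ℕ, ∀ H : ℕ, H₀ ≤ H →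
  ∀ (s : ℤ) (L q : ℕ) (y y' r r' : ℤ), Hyp κ H s L q y y' r r' → ∀ u v : ℤ × ℤ, inbox H u v →
  |∑ b ∈ bx u v, lam (G s L q y r b) * pos (G s L q y' r' b) -
    rt (L * q) * ∑ b ∈ bx u v, (if IsCoprime (G s L q y r b) ((L * q : ℕ) : ℤ) then
        pos (G s L q y r b) * pos (G s L q y' r' b) else 0)| ≤ (H : ℝ) ^ 2 / Real.log H ^ A

/-- The factor which measures the primes dividing `n` but not `M`. -/
noncomputable def V (M n : ℕ) : ℝ :=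
  ∏ p ∈ n.primeFactors.filter (fun p => ¬ p ∣ M), ((p : ℝ) / ((p : ℝ) - 1)) ^ 2 - 1 +
    ∑ p ∈ n.primeFactors.filter (fun p => ¬ p ∣ M), 2 / (p : ℝ)

/-- The area of the box. -/
noncomputable def ar (u v : ℤ × ℤ) : ℝ := ((v.1 : ℝ) - u.1 + 1) * ((v.2 : ℝ) - u.2 + 1)

/-- Part LOC: comparison of the local densities. -/
def S_LOC : Prop := ∀ κ A : ℕ, ∃ H₀ : ℕ, ∀ H : ℕ, H₀ ≤ H →
  ∀ (s : ℤ) (L q : ℕ) (y y' r r' : ℤ), Hyp κ H s L q y y' r r' → ∀ u v : ℤ × ℤ, inbox H u v →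
  ∀ M : ℕ, 1 ≤ M → (M : ℝ) ≤ Real.log H ^ κ → (∀ p : ℕ, p.Prime → p ∣ M → p ∣ L) →
    (∀ p : ℕ, p.Prime → p ∣ L → p ∣ M ∨ p ∣ q) →
  |∑ b ∈ bx u v, lam (G s L q y r b) * lam (G s L q y' r' b) -
    rt M ^ 2 * ∑ b ∈ bx u v, pos (G s L q y r b) * pos (G s L q y' r' b)| ≤
      rt M ^ 2 * V M (q * (y - y').natAbs) * ar u v + (H : ℝ) ^ 2 / Real.log H ^ A ∧
  |∑ b ∈ bx u v, lam (G s L q y r b) * pos (G s L q y' r' b) -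
    rt M * ∑ b ∈ bx u v, pos (G s L q y r b) * pos (G s L q y' r' b)| ≤
      rt M * V M (q * (y - y').natAbs) * ar u v + (H : ℝ) ^ 2 / Real.log H ^ A

/-- Part VSUM: the mean value of the local factors. -/
def S_VSUM : Prop := ∀ m : ℕ, ∃ C : ℝ, 0 ≤ C ∧ ∀ W M g q' T : ℕ, 1 ≤ W → 1 ≤ M →
  (∀ p : ℕ, p.Prime → p ≤ W → p ∣ M) → (∀ p : ℕ, p.Prime → p ∣ g → p ∣ M) → q'.Prime → W ≤ q' →
  ∑ x ∈ (range T ×ˢ range T).filter (fun x => x.1 ≠ x.2),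
    ((1 + V M (g * q' * (M * ((x.1 : ℤ) - x.2).natAbs))) ^ m - 1) ≤ C * T ^ 2 / W

/-- Part COMB. -/
def S_COMB : Prop := ∀ (m : ℕ) (X Y Y' Z : Fin m → ℝ) (w κ : ℝ), 1 ≤ w → 0 ≤ κ →
  (∀ i, 0 ≤ Z i ∧ Z i ≤ 1) → (∀ i, |X i - w ^ 2 * Z i| ≤ w ^ 2 * κ) →
  (∀ i, |Y i - w * Z i| ≤ w * κ) → (∀ i, |Y' i - w * Z i| ≤ w * κ) →
  |∏ i, X i - w ^ m * ∏ i, Y i - w ^ m * ∏ i, Y' i + w ^ (2 * m) * ∏ i, Z i| ≤
    3 * w ^ (2 * m) * ((1 + κ) ^ m - 1)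

/-! ### Bilinear sums of Jacobi symbols -/

/-- Part BIL: the bilinear estimate over primes. -/
def S_BIL : Prop := ∃ C : ℝ, 0 ≤ C ∧ ∀ X : ℕ, 1 ≤ X → ∀ α β : ℕ → ℝ, (∀ n, |α n| ≤ 1) →
  (∀ n, |β n| ≤ 1) →
  |∑ p ∈ (Icc 3 X).filter Nat.Prime, ∑ l ∈ (Icc 3 X).filter Nat.Prime,
    α p * β l * (jacobiSym (p : ℤ) l : ℝ)| ≤ C * (X : ℝ) ^ (15 / 8 : ℝ)

/-! ### The one dimensional family -/

/-- The data of the sample points and of the linear forms. -/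
structure Data (m : ℕ) where
  /-- the modulus -/
  M : ℕ
  /-- the part of `q` which divides a power of `M` -/
  g : ℕ
  /-- the large prime factor of `q` -/
  q' : ℕ
  /-- the first second coordinate -/
  y₀ : ℤ
  /-- the number of points -/
  T : ℕ
  /-- signs -/
  s : Fin m → ℤ
  /-- leading factors -/
  L : Fin m → ℕ
  /-- the remaining parts -/
  r : Fin m → ℕ → ℤ
  /-- the lower corners of the boxes -/
  u : Fin m → ℤ × ℤ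
  /-- the upper corners of the boxes -/
  v : Fin m → ℤ × ℤ

namespace Data

variable {m : ℕ} (D : Data m)

/-- the first coordinate of the sample points -/
def q : ℕ := D.g * D.q'

/-- the second coordinate of the `t`-th sample point -/
def y (t : ℕ) : ℤ := D.y₀ + D.M * t

/-- the value of the `i`-th form at the `t`-th point -/
def val (i : Fin m) (t : ℕ) (b : ℤ × ℤ) : ℤ := G (D.s i) (D.L i) D.q (D.y t) (D.r i t) b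

/-- the indices which are used -/
noncomputable def ts : Finset ℕ := (range D.T).filter (fun t => ¬ (D.q' : ℤ) ∣ D.y t)

/-- the product of the boxes -/
noncomputable def box : Finset (Fin m → ℤ × ℤ) := Fintype.piFinset (fun i => bx (D.u i) (D.v i))

/-- the volume of the product of the boxes -/
noncomputable def vol : ℝ := ∏ i, ar (D.u i) (D.v i)

/-- the product of the weights at the `t`-th point -/
noncomputable def f (t : ℕ) (b : Fin m → ℤ × ℤ) : ℝ := ∏ i, lam (D.val i t (b i))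

/-- the product of the signs at the `t`-th point -/
noncomputable def one (t : ℕ) (b : Fin m → ℤ × ℤ) : ℝ := ∏ i, pos (D.val i t (b i))

/-- The conditions on the data. -/
structure Ok (κ W H : ℕ) : Prop where
  hW : 1 ≤ W
  hM : 1 ≤ D.M
  h2 : 2 ∣ D.M
  hMW : ∀ p : ℕ, p.Prime → p ≤ W → p ∣ D.M
  hM' : (D.M : ℝ) ≤ Real.log H ^ κ
  hg : D.g ∣ D.M
  hq' : D.q'.Prime
  hqM : ¬ D.q' ∣ D.M
  hqW : W ≤ D.q'
  hq : (D.q : ℝ) ≤ Real.log H ^ κ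
  hT : Real.log H ^ (2 * m + 3) ≤ D.T
  hT' : (D.T : ℝ) ≤ Real.log H ^ κ
  hqT : Real.log H ^ 2 ≤ D.q'
  hy : ∀ t < D.T, |(D.y t : ℝ)| ≤ Real.log H ^ κ
  hs : ∀ i, D.s i = 1 ∨ D.s i = -1
  hL : ∀ i, 1 ≤ D.L i
  hL' : ∀ i, (D.L i : ℝ) ≤ Real.log H ^ κ
  hr : ∀ i, ∀ t < D.T, |(D.r i t : ℝ)| ≤ H * Real.log H ^ κ
  hLM : ∀ i, ∀ p : ℕ, p.Prime → p ∣ D.M → p ∣ D.L i
  hLq : ∀ i, ∀ p : ℕ, p.Prime → p ∣ D.L i → p ∣ D.M ∨ p ∣ D.q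
  co : ∀ i, ∀ t ∈ D.ts, IsCoprime (D.r i t) (D.L i : ℤ)
  hbox : ∀ i, inbox H (D.u i) (D.v i)
  hu : ∀ i, (H : ℝ) / Real.log H ≤ (D.v i).1 - (D.u i).1 ∧
    (H : ℝ) / Real.log H ≤ (D.v i).2 - (D.u i).2

end Data

/-- Part D2: the second moment of the deviation. -/
def S_D2 : Prop := ∀ m : ℕ, ∃ C : ℝ, 0 ≤ C ∧ ∀ κ W : ℕ, ∃ H₀ : ℕ, ∀ H : ℕ, H₀ ≤ H → ∀ D : Data m,
  D.Ok κ W H →
  ∑ b ∈ D.box, (∑ t ∈ D.ts, (D.f t b - rt D.M ^ m * D.one t b)) ^ 2 ≤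
    C / W * rt D.M ^ (2 * m) * D.T ^ 2 * D.vol

/-- Part TW: the second moment of the twisted sums. -/
def S_TW : Prop := ∀ m : ℕ, ∀ κ W : ℕ, ∃ H₀ : ℕ, ∀ H : ℕ, H₀ ≤ H → ∀ D : Data m, D.Ok κ W H →
  ∀ J : Finset (Fin m × Fin m), J.Nonempty → (∀ x ∈ J, x.1 < x.2) →
  ∑ b ∈ D.box, (∑ t ∈ D.ts, D.f t b * ∏ x ∈ J,
    (jacobiSym (D.val x.1 t (b x.1)) (D.val x.2 t (b x.2)).natAbs : ℝ)) ^ 2 ≤
    1 / Real.log H * D.T ^ 2 * D.vol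

open Classical in
/-- Part FIX: for most of the coefficients there is a sample point with prime values and prescribed
symbols. -/
def S_FIX : Prop := ∀ m : ℕ, ∃ C : ℝ, 0 ≤ C ∧ ∀ κ W : ℕ, ∃ H₀ : ℕ, ∀ H : ℕ, H₀ ≤ H → ∀ D : Data m,
  D.Ok κ W H → ∀ ε : Fin m → Fin m → ℤ, (∀ i j, ε i j = 1 ∨ ε i j = -1) →
  ((D.box.filter (fun b => (∀ i, ∀ t ∈ D.ts, 0 < D.val i t (b i)) ∧
    ¬ ∃ t ∈ D.ts, (∀ i, (D.val i t (b i)).natAbs.Prime) ∧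
      ∀ i j, i < j → jacobiSym (D.val i t (b i)) (D.val j t (b j)).natAbs = ε i j)).card : ℝ) ≤
    C / W * D.vol

/-! ### Almost all binary forms -/

/-- The value at `(x, y)` of the binary form of degree `e + 1` with the coefficients `c`. -/
def fm {R : Type} [CommRing R] {e : ℕ} (c : Fin (e + 2) → R) (x y : R) : R :=
  ∑ j : Fin (e + 2), c j * x ^ (e + 1 - (j : ℕ)) * y ^ (j : ℕ)

/-- The value at a point with coordinates in `R` of the binary form with integral coefficients. -/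
def fmv {e : ℕ} (c : Fin (e + 2) → ℤ) {R : Type} [CommRing R] (x y : R) : R :=
  fm (fun j => (c j : R)) x y

/-- The families of forms with coefficients of absolute value at most `H`. -/
noncomputable def BX {m : ℕ} (e : Fin m → ℕ) (H : ℕ) : Finset ((i : Fin m) → Fin (e i + 2) → ℤ) :=
  Fintype.piFinset (fun i => Fintype.piFinset (fun _ => Icc (-(H : ℤ)) H))

/-- The number of coefficients. -/
def nc {m : ℕ} (e : Fin m → ℕ) : ℕ := ∑ i, (e i + 2)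

/-- Part PTS: the sample points. -/
def S_PTS : Prop := ∀ (M : ℕ) (a₀ a₁ : ℤ) (α β : ℝ) (n : ℕ), 1 ≤ M → α < β → ∃ κ H₀ : ℕ,
  ∀ H : ℕ, H₀ ≤ H → ∃ (g q' : ℕ) (y₀ : ℤ) (T : ℕ), g ∣ M ∧ q'.Prime ∧ ¬ q' ∣ M ∧
    (M : ℤ) ∣ ((g * q' : ℕ) : ℤ) - a₀ ∧ (M : ℤ) ∣ y₀ - a₁ ∧
    (∀ t < T, α * ((g * q' : ℕ) : ℝ) < (y₀ + M * t : ℤ) ∧
      ((y₀ + M * t : ℤ) : ℝ) < β * ((g * q' : ℕ) : ℝ)) ∧
    Real.log H ^ n ≤ T ∧ Real.log H ^ n ≤ q' ∧ ((g * q' : ℕ) : ℝ) ≤ Real.log H ^ κ ∧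
    (T : ℝ) ≤ Real.log H ^ κ ∧ (∀ t < T, |((y₀ + M * t : ℤ) : ℝ)| ≤ Real.log H ^ κ)

open Classical in
/-- Part AMT: prime values with prescribed symbols of almost all families of binary forms. -/
def S_AMT : Prop := ∀ (m : ℕ) (e : Fin m → ℕ), ∃ C : ℝ, 0 ≤ C ∧ ∀ W M : ℕ, 1 ≤ W → 1 ≤ M → 2 ∣ M →
  (∀ p : ℕ, p.Prime → p ≤ W → p ∣ M) → (∀ p : ℕ, p.Prime → p ∣ M → p ≤ W) →
  ∀ (a₀ a₁ : ℤ) (α β : ℝ), α < β → ∀ (γ : (i : Fin m) → Fin (e i + 2) → ℤ) (g : Fin m → ℕ)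
    (s : Fin m → ℤ) (ε : Fin m → Fin m → ℤ), (∀ i, s i = 1 ∨ s i = -1) →
    (∀ i j, ε i j = 1 ∨ ε i j = -1) → (∀ i, g i ∣ M ∧ ∀ p : ℕ, p.Prime → p ∣ M → p ∣ M / g i) →
    (∀ i, ∃ n : ℤ, fm (γ i) a₀ a₁ = g i * n ∧ IsCoprime n (M : ℤ)) →
  ∃ H₀ : ℕ, ∀ H : ℕ, H₀ ≤ H →
    (((BX e H).filter (fun c => (∀ i j, (M : ℤ) ∣ c i j - γ i j) ∧
      (∀ i, ∀ z : ℝ, α < z → z < β → 0 < (s i : ℝ) * fmv (c i) 1 z) ∧
      ¬ ∃ x y : ℤ, 0 < x ∧ (M : ℤ) ∣ x - a₀ ∧ (M : ℤ) ∣ y - a₁ ∧ α * x < y ∧ (y : ℝ) < β * x ∧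
        ∃ P : Fin m → ℕ, (∀ i, (P i).Prime ∧ s i * fm (c i) x y = g i * P i) ∧
          ∀ i j, i < j → jacobiSym (P i) (P j) = ε i j)).card : ℝ) ≤
      C / W * (((2 * H + 1 : ℕ) : ℝ) / M) ^ nc e

end Pool.Agent.N718.DC
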