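import Mathlib
import Pool.Agent.N718.DC.Stm

/-!
# The Hasse principle for almost all diagonal conic bundles (project DC, helper718), second part

Definitions and statements of the parts: conics, local analysis, main theorem.
-/

set_option autoImplicit false
set_option linter.all false

namespace Pool.Agent.N718.DC

open Finset

/-- The conic `A u² + B v² = C w²` has a point over `K`. -/
def Sol {K : Type} [Field K] (A B C : K) : Prop :=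
  ∃ u v w : K, (u ≠ 0 ∨ v ≠ 0 ∨ w ≠ 0) ∧ A * u ^ 2 + B * v ^ 2 = C * w ^ 2

/-- The families of forms with coefficients of absolute value at most `H`. -/
noncomputable def BXI {ι : Type} [Fintype ι] [DecidableEq ι] (e : ι → ℕ) (H : ℕ) :
    Finset ((k : ι) → Fin (e k + 2) → ℤ) :=
  Fintype.piFinset (fun k => Fintype.piFinset (fun _ => Icc (-(H : ℤ)) H))

/-- The number of coefficients. -/
def ncI {ι : Type} [Fintype ι] (e : ι → ℕ) : ℕ := ∑ k, (e k + 2)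

/-- The fibre product of the conic bundles `F_{i,0}(x, y) u_i² + F_{i,1}(x, y) v_i² = F_{i,2}(x, y) w_i²`
has a point over the field `K` over the point `(x, y)`, and no form vanishes there. -/
def PS {r : ℕ} {e : Fin r × Fin 3 → ℕ} (c : (k : Fin r × Fin 3) → Fin (e k + 2) → ℤ) {K : Type}
    [Field K] (x y : K) : Prop :=
  (∀ k, fmv (c k) x y ≠ 0) ∧ ∀ i, Sol (fmv (c (i, 0)) x y) (fmv (c (i, 1)) x y) (fmv (c (i, 2)) x y)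

/-- Signs for which the conics have real points. -/
def SS {r : ℕ} (s : Fin r × Fin 3 → ℤ) : Prop :=
  (∀ k, s k = 1 ∨ s k = -1) ∧ ∀ i, ¬ (s (i, 0) = 1 ∧ s (i, 1) = 1 ∧ s (i, 2) = -1) ∧
    ¬ (s (i, 0) = -1 ∧ s (i, 1) = -1 ∧ s (i, 2) = 1)

open Classical in
/-- Part AMT3: part AMT for families indexed by `Fin r × Fin 3`. -/
def S_AMT3 : Prop := ∀ (r : ℕ) (e : Fin r × Fin 3 → ℕ), ∃ C : ℝ, 0 ≤ C ∧ ∀ W M : ℕ, 1 ≤ W → 1 ≤ M →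
  2 ∣ M → (∀ p : ℕ, p.Prime → p ≤ W → p ∣ M) → (∀ p : ℕ, p.Prime → p ∣ M → p ≤ W) →
  ∀ (a₀ a₁ : ℤ) (α β : ℝ), α < β → ∀ (γ : (k : Fin r × Fin 3) → Fin (e k + 2) → ℤ)
    (g : Fin r × Fin 3 → ℕ) (s : Fin r × Fin 3 → ℤ) (ε : Fin r → Fin 3 → Fin 3 → ℤ),
    (∀ k, s k = 1 ∨ s k = -1) →
    (∀ i l l', ε i l l' = 1 ∨ ε i l l' = -1) →
    (∀ k, g k ∣ M ∧ ∀ p : ℕ, p.Prime → p ∣ M → p ∣ M / g k) →
    (∀ k, ∃ n : ℤ, fm (γ k) a₀ a₁ = g k * n ∧ IsCoprime n (M : ℤ)) →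
  ∃ H₀ : ℕ, ∀ H : ℕ, H₀ ≤ H →
    (((BXI e H).filter (fun c => (∀ k j, (M : ℤ) ∣ c k j - γ k j) ∧
      (∀ k, ∀ z : ℝ, α < z → z < β → 0 < (s k : ℝ) * fmv (c k) 1 z) ∧
      ¬ ∃ x y : ℤ, 0 < x ∧ (M : ℤ) ∣ x - a₀ ∧ (M : ℤ) ∣ y - a₁ ∧ α * x < y ∧ (y : ℝ) < β * x ∧
        ∃ P : Fin r × Fin 3 → ℕ, (∀ k, (P k).Prime ∧ s k * fm (c k) x y = g k * P k) ∧
          ∀ i l l', l < l' → jacobiSym (P (i, l)) (P (i, l')) = ε i l l')).card : ℝ) ≤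
      C / W * (((2 * H + 1 : ℕ) : ℝ) / M) ^ ncI e

/-- Part ARI: the conic over a sample point. -/
def S_ARI : Prop := ∀ (M : ℕ) (f : Fin 3 → ℤ) (g : Fin 3 → ℕ) (s : Fin 3 → ℤ), 1 ≤ M → 2 ∣ M →
  (∀ l, g l ∣ M ∧ ∀ p : ℕ, p.Prime → p ∣ M → p ^ 3 ∣ M / g l) →
  (∀ l, ∃ n : ℤ, f l = g l * n ∧ IsCoprime n (M : ℤ)) → (∀ l, s l = 1 ∨ s l = -1) →
  ¬ (s 0 = 1 ∧ s 1 = 1 ∧ s 2 = -1) → ¬ (s 0 = -1 ∧ s 1 = -1 ∧ s 2 = 1) →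
  (∀ (p : ℕ) [Fact p.Prime], p ∣ M → Sol ((f 0 : ℤ) : ℚ_[p]) ((f 1 : ℤ) : ℚ_[p]) ((f 2 : ℤ) : ℚ_[p])) →
  ∃ ε : Fin 3 → Fin 3 → ℤ, (∀ l l', ε l l' = 1 ∨ ε l l' = -1) ∧
    ∀ F : Fin 3 → ℤ, (∀ l, (M : ℤ) ∣ F l - f l) → ∀ P : Fin 3 → ℕ,
      (∀ l, (P l).Prime ∧ s l * F l = g l * P l) →
      (∀ l l', l < l' → jacobiSym (P l) (P l') = ε l l') →
      Sol ((F 0 : ℤ) : ℚ) ((F 1 : ℤ) : ℚ) ((F 2 : ℤ) : ℚ)

open Classical in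
/-- Part CLS: rational points for almost all families in a residue class. -/
def S_CLS : Prop := ∀ (r : ℕ) (e : Fin r × Fin 3 → ℕ), ∃ C : ℝ, 0 ≤ C ∧ ∀ W M : ℕ, 1 ≤ W → 1 ≤ M →
  2 ∣ M → (∀ p : ℕ, p.Prime → p ≤ W → p ∣ M) → (∀ p : ℕ, p.Prime → p ∣ M → p ≤ W) →
  ∀ (a₀ a₁ : ℤ) (α β : ℝ), α < β → ∀ (γ : (k : Fin r × Fin 3) → Fin (e k + 2) → ℤ)
    (s : Fin r × Fin 3 → ℤ), SS s →
    (∀ p : ℕ, p.Prime → p ∣ M → 3 ≤ padicValNat p M ∧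
      ∀ k, ¬ ((p : ℤ) ^ (padicValNat p M - 3 + 1) ∣ fm (γ k) a₀ a₁)) →
    (∀ (p : ℕ) [Fact p.Prime], p ∣ M → PS γ ((a₀ : ℤ) : ℚ_[p]) ((a₁ : ℤ) : ℚ_[p])) →
  ∃ H₀ : ℕ, ∀ H : ℕ, H₀ ≤ H →
    (((BXI e H).filter (fun c => (∀ k j, (M : ℤ) ∣ c k j - γ k j) ∧
      (∀ k, ∀ z : ℝ, α < z → z < β → 0 < (s k : ℝ) * fmv (c k) 1 z) ∧
      ¬ ∃ x y : ℤ, 0 < x ∧ (M : ℤ) ∣ x - a₀ ∧ (M : ℤ) ∣ y - a₁ ∧ α * x < y ∧ (y : ℝ) < β * x ∧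
        PS c (x : ℚ) (y : ℚ))).card : ℝ) ≤
      C / W * (((2 * H + 1 : ℕ) : ℝ) / M) ^ ncI e

/-! ### p-adic analysis -/

/-- The form with the coefficients in reverse order. -/
def rv {e : ℕ} (c : Fin (e + 2) → ℤ) : Fin (e + 2) → ℤ := fun j => c (Fin.rev j)

/-- The derivative of `t ↦ fm c 1 t`. -/
def dm {e : ℕ} (c : Fin (e + 2) → ℤ) (t : ℤ) : ℤ := ∑ j : Fin (e + 2), (j : ℤ) * c j * t ^ ((j : ℕ) - 1)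

/-- The forms are degenerate modulo `p ^ n` at some point `(1, t)`. -/
def degen {ι : Type} {e : ι → ℕ} (p n : ℕ) (c : (k : ι) → Fin (e k + 2) → ℤ) : Prop :=
  ∃ t : ℤ, (∃ a b, a ≠ b ∧ (p : ℤ) ^ n ∣ fm (c a) 1 t ∧ (p : ℤ) ^ n ∣ fm (c b) 1 t) ∨
    ∃ a, (p : ℤ) ^ n ∣ fm (c a) 1 t ∧ (p : ℤ) ^ n ∣ dm (c a) t

/-- The forms are degenerate modulo `p ^ n`. -/
def padBad {ι : Type} {e : ι → ℕ} (p n : ℕ) (c : (k : ι) → Fin (e k + 2) → ℤ) : Prop :=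
  degen p n c ∨ degen p n (fun a => rv (c a))

open Classical in
/-- Part PADC: few families are degenerate modulo high powers of `p`. -/
def S_PADC : Prop := ∀ (ι : Type) [Fintype ι] [DecidableEq ι] (e : ι → ℕ) (p : ℕ), p.Prime →
  ∀ (η : ℝ) (n₀ : ℕ), 0 < η → ∃ n : ℕ, n₀ ≤ n ∧ ∃ H₀ : ℕ, ∀ H : ℕ, H₀ ≤ H →
    (((BXI e H).filter (fun c => padBad p n c)).card : ℝ) ≤ η * ((2 * H + 1 : ℕ) : ℝ) ^ ncI e

/-- Part PADT: for a family which is not degenerate every `p`-adic point has a neighbouring point at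
which the values of the forms have bounded valuations and the same square classes. -/
def S_PADT : Prop := ∀ (ι : Type) [Fintype ι] (e : ι → ℕ) (p : ℕ) [Fact p.Prime] (N n : ℕ), N ≤ n →
  ∀ c : (k : ι) → Fin (e k + 2) → ℤ, ¬ padBad p n c → ∀ x y : ℚ_[p], max ‖x‖ ‖y‖ = 1 →
    (∀ k, fmv (c k) x y ≠ 0) →
    ∃ a₀ a₁ : ℤ, ‖x - (a₀ : ℚ_[p])‖ ≤ (((p : ℝ) ^ N))⁻¹ ∧ ‖y - (a₁ : ℚ_[p])‖ ≤ (((p : ℝ) ^ N))⁻¹ ∧
      (∀ k, ¬ ((p : ℤ) ^ (3 * n + 12) ∣ fm (c k) a₀ a₁)) ∧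
      ∀ k, ∃ z : ℚ_[p], z ≠ 0 ∧ fmv (c k) x y = ((fm (c k) a₀ a₁ : ℤ) : ℚ_[p]) * z ^ 2

/-! ### Real analysis -/

open Classical in
/-- Part ORTHO: lattice points in cones whose sections parallel to the axes are intervals. -/
def S_ORTHO : Prop := ∀ (κ : Type) [Fintype κ] [DecidableEq κ], ∃ C : ℝ, 0 ≤ C ∧
  ∀ S : Set (κ → ℝ), (∀ c ∈ S, ∀ l : ℝ, 0 < l → l • c ∈ S) →
    (∀ (c : κ → ℝ) (j : κ), {τ : ℝ | Function.update c j τ ∈ S}.OrdConnected) →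
    ∀ H₁ H : ℕ, 1 ≤ H₁ → H₁ ≤ H →
    |(((Fintype.piFinset (fun _ : κ => Icc (-(H : ℤ)) H)).filter
        (fun c => (fun j => (c j : ℝ)) ∈ S)).card : ℝ) / ((2 * H + 1 : ℕ) : ℝ) ^ Fintype.card κ -
      (((Fintype.piFinset (fun _ : κ => Icc (-(H₁ : ℤ)) H₁)).filter
        (fun c => (fun j => (c j : ℝ)) ∈ S)).card : ℝ) / ((2 * H₁ + 1 : ℕ) : ℝ) ^ Fintype.card κ| ≤
      C / H₁

open Classical in
/-- Part REAL: for most of the families with real points in `U` the forms have constant suitable signs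
on one of finitely many intervals. -/
def S_REAL : Prop := ∀ (r : ℕ) (e : Fin r × Fin 3 → ℕ) (U : Set ℝ), IsOpen U → ∀ η : ℝ, 0 < η →
  ∃ (Z : Finset (ℝ × ℝ)) (H₀ : ℕ), (∀ w ∈ Z, w.1 < w.2 ∧ Set.Icc w.1 w.2 ⊆ U) ∧ ∀ H : ℕ, H₀ ≤ H →
    (((BXI e H).filter (fun c => (∃ z ∈ U, PS c (1 : ℝ) z) ∧
      ¬ ∃ w ∈ Z, ∃ s : Fin r × Fin 3 → ℤ, SS s ∧
        ∀ k, ∀ z : ℝ, w.1 < z → z < w.2 → 0 < (s k : ℝ) * fmv (c k) 1 z)).card : ℝ) ≤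
      η * ((2 * H + 1 : ℕ) : ℝ) ^ ncI e

open Classical in
/-- Part POS: a positive proportion of the families in a residue class is positive on an interval. -/
def S_POS : Prop := ∀ (ι : Type) [Fintype ι] [DecidableEq ι] (e : ι → ℕ) (α β : ℝ), α < β →
  ∃ p₀ : ℝ, 0 < p₀ ∧ ∀ M : ℕ, 1 ≤ M → ∀ γ : (k : ι) → Fin (e k + 2) → ℤ, ∃ H₀ : ℕ, ∀ H : ℕ, H₀ ≤ H →
    p₀ * (((2 * H + 1 : ℕ) : ℝ) / M) ^ ncI e ≤
      (((BXI e H).filter (fun c => (∀ k j, (M : ℤ) ∣ c k j - γ k j) ∧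
        ∀ k, ∀ z : ℝ, α < z → z < β → 0 < fmv (c k) (1 : ℝ) z)).card : ℝ)

/-! ### The main theorem -/

instance factPrime' (p : Nat.Primes) : Fact (p : ℕ).Prime := ⟨p.2⟩

/-- The fibre product has real points over points `(1, z)`, `z ∈ U`, and points over all `ℚ_p`. -/
def Loc {r : ℕ} {e : Fin r × Fin 3 → ℕ} (U : Set ℝ) (c : (k : Fin r × Fin 3) → Fin (e k + 2) → ℤ) :
    Prop :=
  (∃ z ∈ U, PS c (1 : ℝ) z) ∧ ∀ p : Nat.Primes, ∃ x y : ℚ_[(p : ℕ)], PS c x y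

/-- For all primitive local points at the primes of `S` there is a rational point whose base point is
close to them modulo `p ^ N` and lies in `U`. -/
def Appr {r : ℕ} {e : Fin r × Fin 3 → ℕ} (U : Set ℝ) (S : Finset Nat.Primes) (N : ℕ)
    (c : (k : Fin r × Fin 3) → Fin (e k + 2) → ℤ) : Prop :=
  ∀ X Y : (p : Nat.Primes) → ℚ_[(p : ℕ)], (∀ p ∈ S, max ‖X p‖ ‖Y p‖ = 1 ∧ PS c (X p) (Y p)) →
    ∃ x y : ℤ, 0 < x ∧ (y : ℝ) / x ∈ U ∧ PS c (x : ℚ) (y : ℚ) ∧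
      ∀ p ∈ S, ‖X p - (x : ℚ_[(p : ℕ)])‖ ≤ (((p : ℕ) : ℝ) ^ N)⁻¹ ∧
        ‖Y p - (y : ℚ_[(p : ℕ)])‖ ≤ (((p : ℕ) : ℝ) ^ N)⁻¹

open Classical in
/-- Part GLUE: the local points are replaced by one integral point. -/
def S_GLUE : Prop := ∀ (r : ℕ) (e : Fin r × Fin 3 → ℕ), (∀ i l l', e (i, l) % 2 = e (i, l') % 2) →
  ∀ (U : Set ℝ) (S : Finset Nat.Primes) (N W : ℕ) (n : ℕ → ℕ) (M : ℕ),
    M = ∏ p ∈ (Icc 1 W).filter Nat.Prime, p ^ (3 * n p + 14) → (∀ p ∈ S, (p : ℕ) ≤ W) →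
    (∀ p, N ≤ n p) → ∀ c : (k : Fin r × Fin 3) → Fin (e k + 2) → ℤ,
    (∀ p : ℕ, p.Prime → p ≤ W → ¬ padBad p (n p) c) → Loc U c →
    ∀ X Y : (p : Nat.Primes) → ℚ_[(p : ℕ)], (∀ p ∈ S, max ‖X p‖ ‖Y p‖ = 1 ∧ PS c (X p) (Y p)) →
    ∃ a₀ a₁ : ℤ, (∀ p ∈ S, ‖X p - (a₀ : ℚ_[(p : ℕ)])‖ ≤ (((p : ℕ) : ℝ) ^ N)⁻¹ ∧
        ‖Y p - (a₁ : ℚ_[(p : ℕ)])‖ ≤ (((p : ℕ) : ℝ) ^ N)⁻¹) ∧
      ∀ γ : (k : Fin r × Fin 3) → Fin (e k + 2) → ℤ, (∀ k j, (M : ℤ) ∣ c k j - γ k j) →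
        (∀ p : ℕ, p.Prime → p ∣ M → 3 ≤ padicValNat p M ∧
          ∀ k, ¬ ((p : ℤ) ^ (padicValNat p M - 3 + 1) ∣ fm (γ k) a₀ a₁)) ∧
        (∀ (p : ℕ) [Fact p.Prime], p ∣ M → PS γ ((a₀ : ℤ) : ℚ_[p]) ((a₁ : ℤ) : ℚ_[p]))

open Classical in
/-- Part MAINA: approximation for almost all families with points everywhere locally. -/
def S_MAINA : Prop := ∀ (r : ℕ) (e : Fin r × Fin 3 → ℕ), (∀ i l l', e (i, l) % 2 = e (i, l') % 2) →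
  ∀ U : Set ℝ, IsOpen U → ∀ (S : Finset Nat.Primes) (N : ℕ) (η : ℝ), 0 < η → ∃ H₀ : ℕ, ∀ H : ℕ,
    H₀ ≤ H → (((BXI e H).filter (fun c => Loc U c ∧ ¬ Appr U S N c)).card : ℝ) ≤
      η * ((2 * H + 1 : ℕ) : ℝ) ^ ncI e

open Classical in
/-- Part MAINB: a positive proportion of the families has points everywhere locally. -/
def S_MAINB : Prop := ∀ (r : ℕ) (e : Fin r × Fin 3 → ℕ), ∀ U : Set ℝ, IsOpen U → U.Nonempty →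
  ∃ c₀ : ℝ, 0 < c₀ ∧ ∃ H₀ : ℕ, ∀ H : ℕ, H₀ ≤ H →
    c₀ * ((2 * H + 1 : ℕ) : ℝ) ^ ncI e ≤ (((BXI e H).filter (fun c => Loc U c)).card : ℝ)

end Pool.Agent.N718.DC
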