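import Mathlib
import Pool.Agent.N718.DC.Stm2

/-!
# Weak approximation for almost all diagonal conic bundles (project DW, helper718)
-/

set_option autoImplicit false
set_option linter.all false

namespace Pool.Agent.N718.DC

open Finset

/-- The vector `z` is a nonzero solution of `A z₀² + B z₁² = C z₂²`. -/
def OnC {K : Type} [Field K] (A B C : K) (z : Fin 3 → K) : Prop :=
  z ≠ 0 ∧ A * z 0 ^ 2 + B * z 1 ^ 2 = C * z 2 ^ 2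

/-- The point `(x, z)` lies on the fibre product of the conic bundles, and no form vanishes at `x`. -/
def OnX {r : ℕ} {e : Fin r × Fin 3 → ℕ} (c : (k : Fin r × Fin 3) → Fin (e k + 2) → ℤ) {K : Type}
    [Field K] (x : Fin 2 → K) (z : Fin r → Fin 3 → K) : Prop :=
  (∀ k, fmv (c k) (x 0) (x 1) ≠ 0) ∧
    ∀ i, OnC (fmv (c (i, 0)) (x 0) (x 1)) (fmv (c (i, 1)) (x 0) (x 1)) (fmv (c (i, 2)) (x 0) (x 1)) (z i)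

/-- The points of the projective space with the homogeneous coordinates `a` and `b` are close. -/
def Near {K : Type} [NormedField K] {n : ℕ} (δ : ℝ) (a b : Fin n → K) : Prop :=
  ∃ l : K, l ≠ 0 ∧ ∀ j, ‖a j - l * b j‖ ≤ ‖a‖ * δ

/-- Part PADW: a local point over `ℚ_p` of a family which is not degenerate is close to one over an
integral point at which the values of the forms have bounded valuations. -/
def S_PADW : Prop := ∀ (r : ℕ) (e : Fin r × Fin 3 → ℕ) (p : ℕ) [Fact p.Prime] (N n : ℕ), N ≤ n →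
  ∀ c : (k : Fin r × Fin 3) → Fin (e k + 2) → ℤ, ¬ padBad p n c →
    ∀ (x : Fin 2 → ℚ_[p]) (z : Fin r → Fin 3 → ℚ_[p]), ‖x‖ = 1 → (∀ i, ‖z i‖ = 1) → OnX c x z →
    ∃ a : Fin 2 → ℤ, (∀ j, ‖x j - (a j : ℚ_[p])‖ ≤ (((p : ℝ) ^ N))⁻¹) ∧
      (∀ k, ¬ ((p : ℤ) ^ (8 * n + 24) ∣ fm (c k) (a 0) (a 1))) ∧
      ∃ z' : Fin r → Fin 3 → ℚ_[p], (∀ i j, ‖z i j - z' i j‖ ≤ (((p : ℝ) ^ N))⁻¹) ∧
        OnX c (fun j => ((a j : ℤ) : ℚ_[p])) z'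

open Classical in
/-- Part GLUEW: the local points are replaced by one integral base point. -/
def S_GLUEW : Prop := ∀ (r : ℕ) (e : Fin r × Fin 3 → ℕ), 1 ≤ r → (∀ i l l', e (i, l) = e (i, l')) →
  ∀ (S : Finset Nat.Primes) (N W : ℕ) (n : ℕ → ℕ) (M : ℕ),
    M = ∏ p ∈ (Icc 1 W).filter Nat.Prime, p ^ (9 * n p + 26) → (∀ p ∈ S, (p : ℕ) ≤ W) →
    (∀ p, N ≤ n p) → ∀ c : (k : Fin r × Fin 3) → Fin (e k + 2) → ℤ,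
    (∀ p : ℕ, p.Prime → p ≤ W → ¬ padBad p (n p) c) →
    ∀ (X : (p : Nat.Primes) → Fin 2 → ℚ_[(p : ℕ)]) (Z : (p : Nat.Primes) → Fin r → Fin 3 → ℚ_[(p : ℕ)]),
    (∀ p, OnX c (X p) (Z p)) → (∀ p ∈ S, ‖X p‖ = 1 ∧ ∀ i, ‖Z p i‖ = 1) →
    ∃ a : Fin 2 → ℤ, (∀ p ∈ S, (∀ j, ‖X p j - (a j : ℚ_[(p : ℕ)])‖ ≤ ((((p : ℕ) : ℝ) ^ N))⁻¹) ∧
        ∃ z' : Fin r → Fin 3 → ℚ_[(p : ℕ)], OnX c (fun j => ((a j : ℤ) : ℚ_[(p : ℕ)])) z' ∧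
          ∀ i j, ‖Z p i j - z' i j‖ ≤ ((((p : ℕ) : ℝ) ^ N))⁻¹) ∧
      (∀ p : ℕ, p.Prime → p ≤ W → ∀ k, ¬ ((p : ℤ) ^ (8 * n p + 24) ∣ fm (c k) (a 0) (a 1))) ∧
      ∀ (p : ℕ) [Fact p.Prime], p ≤ W → PS c ((a 0 : ℤ) : ℚ_[p]) ((a 1 : ℤ) : ℚ_[p])

/-- Part TRW: local points move with the coefficients and the base point. -/
def S_TRW : Prop := ∀ (r : ℕ) (e : Fin r × Fin 3 → ℕ) (p : ℕ) [Fact p.Prime] (n : ℕ)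
  (c c' : (k : Fin r × Fin 3) → Fin (e k + 2) → ℤ) (a a' : Fin 2 → ℤ),
  (∀ k j, (p : ℤ) ^ (9 * n + 26) ∣ c k j - c' k j) → (∀ j, (p : ℤ) ^ (9 * n + 26) ∣ a j - a' j) →
  (∀ k, ¬ ((p : ℤ) ^ (8 * n + 24) ∣ fm (c k) (a 0) (a 1))) →
  (∀ k, ¬ ((p : ℤ) ^ (8 * n + 24) ∣ fm (c' k) (a' 0) (a' 1))) ∧
  ∀ z : Fin r → Fin 3 → ℚ_[p], (∀ i, ‖z i‖ ≤ 1) → OnX c (fun j => ((a j : ℤ) : ℚ_[p])) z →
    ∃ z' : Fin r → Fin 3 → ℚ_[p], OnX c' (fun j => ((a' j : ℤ) : ℚ_[p])) z' ∧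
      ∀ i j, ‖z i j - z' i j‖ ≤ ((p : ℝ) ^ n)⁻¹

/-! ### The real place -/

/-- The derivative of `t ↦ fmv c 1 t` over the real numbers. -/
noncomputable def dr {e : ℕ} (c : Fin (e + 2) → ℤ) (t : ℝ) : ℝ :=
  ∑ j : Fin (e + 2), (j : ℝ) * c j * t ^ ((j : ℕ) - 1)

/-- The forms are nearly degenerate at some real point `(1, t)`, `|t| ≤ 1`. -/
def rdeg {ι : Type} {e : ι → ℕ} (δ : ℝ) (c : (k : ι) → Fin (e k + 2) → ℤ) : Prop :=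
  ∃ t : ℝ, |t| ≤ 1 ∧ ((∃ a b, a ≠ b ∧ |fmv (c a) (1 : ℝ) t| ≤ δ ∧ |fmv (c b) (1 : ℝ) t| ≤ δ) ∨
    ∃ a, |fmv (c a) (1 : ℝ) t| ≤ δ ∧ |dr (c a) t| ≤ δ)

/-- The forms are nearly degenerate over the real numbers. -/
def rBad {ι : Type} {e : ι → ℕ} (δ : ℝ) (c : (k : ι) → Fin (e k + 2) → ℤ) : Prop :=
  rdeg δ c ∨ rdeg δ (fun a => rv (c a))

open Classical in
/-- Part RDC: few families are nearly degenerate over the real numbers. -/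
def S_RDC : Prop := ∀ (ι : Type) [Fintype ι] [DecidableEq ι] (e : ι → ℕ) (η : ℝ), 0 < η →
  ∃ δ : ℝ, 0 < δ ∧ ∃ H₀ : ℕ, ∀ H : ℕ, H₀ ≤ H →
    (((BXI e H).filter (fun c => rBad (δ * H) c)).card : ℝ) ≤ η * ((2 * H + 1 : ℕ) : ℝ) ^ ncI e

/-- Part RDW: for families which are not nearly degenerate every real point is close to real points over
one of finitely many intervals. -/
def S_RDW : Prop := ∀ (r : ℕ) (e : Fin r × Fin 3 → ℕ), 1 ≤ r → (∀ i l l', e (i, l) = e (i, l')) →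
  ∀ (ε δ : ℝ), 0 < ε → 0 < δ →
  ∃ Z : Finset (ℝ × ℝ), (∀ w ∈ Z, w.1 < w.2) ∧ ∀ H : ℕ, 1 ≤ H → ∀ c ∈ BXI e H, ¬ rBad (δ * H) c →
    ∀ (x : Fin 2 → ℝ) (z : Fin r → Fin 3 → ℝ), OnX c x z → ∃ w ∈ Z, ∃ s : Fin r × Fin 3 → ℤ,
      SS s ∧ (∀ k, ∀ t : ℝ, w.1 < t → t < w.2 → 0 < (s k : ℝ) * fmv (c k) 1 t) ∧
      ∀ t : ℝ, w.1 < t → t < w.2 → Near ε x ![1, t] ∧ ∀ i, ∃ z' : Fin 3 → ℝ,
        OnC (fmv (c (i, 0)) (1 : ℝ) t) (fmv (c (i, 1)) (1 : ℝ) t) (fmv (c (i, 2)) (1 : ℝ) t) z' ∧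
          Near ε (z i) z'

/-! ### Conics and the main theorem -/

/-- Part CWA: weak approximation for conics with a rational point. -/
def S_CWA : Prop := ∀ (A B C : ℚ), A ≠ 0 → B ≠ 0 → C ≠ 0 → Sol A B C → ∀ (S : Finset Nat.Primes)
  (Z : (p : Nat.Primes) → Fin 3 → ℚ_[(p : ℕ)]) (ZR : Fin 3 → ℝ),
  (∀ p ∈ S, OnC (A : ℚ_[(p : ℕ)]) B C (Z p)) → OnC (A : ℝ) B C ZR → ∀ ε : ℝ, 0 < ε →
  ∃ z : Fin 3 → ℚ, OnC A B C z ∧ (∀ p ∈ S, Near ε (Z p) (fun j => (z j : ℚ_[(p : ℕ)]))) ∧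
    Near ε ZR (fun j => (z j : ℝ))

/-- Weak approximation to precision `1 / m` at the real place and at the primes up to `m`. -/
def WAp {r : ℕ} {e : Fin r × Fin 3 → ℕ} (m : ℕ) (c : (k : Fin r × Fin 3) → Fin (e k + 2) → ℤ) : Prop :=
  ∀ (X : (p : Nat.Primes) → Fin 2 → ℚ_[(p : ℕ)]) (Z : (p : Nat.Primes) → Fin r → Fin 3 → ℚ_[(p : ℕ)])
    (XR : Fin 2 → ℝ) (ZR : Fin r → Fin 3 → ℝ), (∀ p, OnX c (X p) (Z p)) → OnX c XR ZR →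
    ∃ (x : Fin 2 → ℚ) (z : Fin r → Fin 3 → ℚ), OnX c x z ∧
      (∀ p : Nat.Primes, (p : ℕ) ≤ m → Near (1 / (m : ℝ)) (X p) (fun j => (x j : ℚ_[(p : ℕ)])) ∧
        ∀ i, Near (1 / (m : ℝ)) (Z p i) (fun j => (z i j : ℚ_[(p : ℕ)]))) ∧
      Near (1 / (m : ℝ)) XR (fun j => (x j : ℝ)) ∧
        ∀ i, Near (1 / (m : ℝ)) (ZR i) (fun j => (z i j : ℝ))

open Classical in
/-- Part MAINW: weak approximation for almost all families. -/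
def S_MAINW : Prop := ∀ (r : ℕ) (e : Fin r × Fin 3 → ℕ), 1 ≤ r → (∀ i l l', e (i, l) = e (i, l')) →
  ∀ (m : ℕ) (η : ℝ), 1 ≤ m → 0 < η → ∃ H₀ : ℕ, ∀ H : ℕ, H₀ ≤ H →
    (((BXI e H).filter (fun c => ¬ WAp m c)).card : ℝ) ≤ η * ((2 * H + 1 : ℕ) : ℝ) ^ ncI e

end Pool.Agent.N718.DC
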