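import Mathlib
import Pool.Agent.N718.DC.Stm2

/-!
# The Hasse principle for almost all diagonal quadric surface bundles (project DQ, helper718)

The same as for conic bundles with four variables in the fibres.
-/

set_option autoImplicit false
set_option linter.all false

namespace Pool.Agent.N718.DC

open Finset

/-- The quadric `∑ A_l u_l² = 0` has a point over `K`. -/
def Sol4 {K : Type} [Field K] (A : Fin 4 → K) : Prop :=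
  ∃ u : Fin 4 → K, u ≠ 0 ∧ ∑ l, A l * u l ^ 2 = 0

/-- The fibre product of the quadric surface bundles `∑ F_{i,l}(x, y) u_{i,l}² = 0` has a point over the
field `K` over the point `(x, y)`, and no form vanishes there. -/
def PS4 {r : ℕ} {e : Fin r × Fin 4 → ℕ} (c : (k : Fin r × Fin 4) → Fin (e k + 2) → ℤ) {K : Type}
    [Field K] (x y : K) : Prop :=
  (∀ k, fmv (c k) x y ≠ 0) ∧ ∀ i, Sol4 (fun l => fmv (c (i, l)) x y)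

/-- Signs for which the quadrics have real points. -/
def SS4 {r : ℕ} (s : Fin r × Fin 4 → ℤ) : Prop :=
  (∀ k, s k = 1 ∨ s k = -1) ∧ ∀ i, ¬ (∀ l, s (i, l) = 1) ∧ ¬ (∀ l, s (i, l) = -1)

open Classical in
/-- Part AMT4: part AMT for families indexed by `Fin r × Fin 4`, without symbols. -/
def S_AMT4 : Prop := ∀ (r : ℕ) (e : Fin r × Fin 4 → ℕ), ∃ C : ℝ, 0 ≤ C ∧ ∀ W M : ℕ, 1 ≤ W → 1 ≤ M →
  2 ∣ M → (∀ p : ℕ, p.Prime → p ≤ W → p ∣ M) → (∀ p : ℕ, p.Prime → p ∣ M → p ≤ W) →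
  ∀ (a₀ a₁ : ℤ) (α β : ℝ), α < β → ∀ (γ : (k : Fin r × Fin 4) → Fin (e k + 2) → ℤ)
    (g : Fin r × Fin 4 → ℕ) (s : Fin r × Fin 4 → ℤ),
    (∀ k, s k = 1 ∨ s k = -1) →
    (∀ k, g k ∣ M ∧ ∀ p : ℕ, p.Prime → p ∣ M → p ∣ M / g k) →
    (∀ k, ∃ n : ℤ, fm (γ k) a₀ a₁ = g k * n ∧ IsCoprime n (M : ℤ)) →
  ∃ H₀ : ℕ, ∀ H : ℕ, H₀ ≤ H →
    (((BXI e H).filter (fun c => (∀ k j, (M : ℤ) ∣ c k j - γ k j) ∧
      (∀ k, ∀ z : ℝ, α < z → z < β → 0 < (s k : ℝ) * fmv (c k) 1 z) ∧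
      ¬ ∃ x y : ℤ, 0 < x ∧ (M : ℤ) ∣ x - a₀ ∧ (M : ℤ) ∣ y - a₁ ∧ α * x < y ∧ (y : ℝ) < β * x ∧
        ∃ P : Fin r × Fin 4 → ℕ, (∀ k, (P k).Prime ∧ s k * fm (c k) x y = g k * P k) ∧
          ∀ k k', k ≠ k' → P k ≠ P k')).card : ℝ) ≤
      C / W * (((2 * H + 1 : ℕ) : ℝ) / M) ^ ncI e

/-- Part HM4: the theorem of Hasse and Minkowski for diagonal forms in four variables. -/
def S_HM4 : Prop := ∀ A : Fin 4 → ℤ, (∀ l, A l ≠ 0) → Sol4 (fun l => (A l : ℝ)) →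
  (∀ (p : ℕ) [Fact p.Prime], Sol4 (fun l => (A l : ℚ_[p]))) → Sol4 (fun l => (A l : ℚ))

open Classical in
/-- Part CLS4: rational points for almost all families in a residue class. -/
def S_CLS4 : Prop := ∀ (r : ℕ) (e : Fin r × Fin 4 → ℕ), ∃ C : ℝ, 0 ≤ C ∧ ∀ W M : ℕ, 1 ≤ W → 1 ≤ M →
  2 ∣ M → (∀ p : ℕ, p.Prime → p ≤ W → p ∣ M) → (∀ p : ℕ, p.Prime → p ∣ M → p ≤ W) →
  ∀ (a₀ a₁ : ℤ) (α β : ℝ), α < β → ∀ (γ : (k : Fin r × Fin 4) → Fin (e k + 2) → ℤ)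
    (s : Fin r × Fin 4 → ℤ), SS4 s →
    (∀ p : ℕ, p.Prime → p ∣ M → 3 ≤ padicValNat p M ∧
      ∀ k, ¬ ((p : ℤ) ^ (padicValNat p M - 3 + 1) ∣ fm (γ k) a₀ a₁)) →
    (∀ (p : ℕ) [Fact p.Prime], p ∣ M → PS4 γ ((a₀ : ℤ) : ℚ_[p]) ((a₁ : ℤ) : ℚ_[p])) →
  ∃ H₀ : ℕ, ∀ H : ℕ, H₀ ≤ H →
    (((BXI e H).filter (fun c => (∀ k j, (M : ℤ) ∣ c k j - γ k j) ∧
      (∀ k, ∀ z : ℝ, α < z → z < β → 0 < (s k : ℝ) * fmv (c k) 1 z) ∧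
      ¬ ∃ x y : ℤ, 0 < x ∧ (M : ℤ) ∣ x - a₀ ∧ (M : ℤ) ∣ y - a₁ ∧ α * x < y ∧ (y : ℝ) < β * x ∧
        PS4 c (x : ℚ) (y : ℚ))).card : ℝ) ≤
      C / W * (((2 * H + 1 : ℕ) : ℝ) / M) ^ ncI e

open Classical in
/-- Part REAL4: for most of the families with real points in `U` the forms have constant suitable signs
on one of finitely many intervals. -/
def S_REAL4 : Prop := ∀ (r : ℕ) (e : Fin r × Fin 4 → ℕ) (U : Set ℝ), IsOpen U → ∀ η : ℝ, 0 < η →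
  ∃ (Z : Finset (ℝ × ℝ)) (H₀ : ℕ), (∀ w ∈ Z, w.1 < w.2 ∧ Set.Icc w.1 w.2 ⊆ U) ∧ ∀ H : ℕ, H₀ ≤ H →
    (((BXI e H).filter (fun c => (∃ z ∈ U, PS4 c (1 : ℝ) z) ∧
      ¬ ∃ w ∈ Z, ∃ s : Fin r × Fin 4 → ℤ, SS4 s ∧
        ∀ k, ∀ z : ℝ, w.1 < z → z < w.2 → 0 < (s k : ℝ) * fmv (c k) 1 z)).card : ℝ) ≤
      η * ((2 * H + 1 : ℕ) : ℝ) ^ ncI e

/-- The fibre product has real points over points `(1, z)`, `z ∈ U`, and points over all `ℚ_p`. -/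
def Loc4 {r : ℕ} {e : Fin r × Fin 4 → ℕ} (U : Set ℝ) (c : (k : Fin r × Fin 4) → Fin (e k + 2) → ℤ) :
    Prop :=
  (∃ z ∈ U, PS4 c (1 : ℝ) z) ∧ ∀ p : Nat.Primes, ∃ x y : ℚ_[(p : ℕ)], PS4 c x y

/-- For all primitive local points at the primes of `S` there is a rational point whose base point is
close to them modulo `p ^ N` and lies in `U`. -/
def Appr4 {r : ℕ} {e : Fin r × Fin 4 → ℕ} (U : Set ℝ) (S : Finset Nat.Primes) (N : ℕ)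
    (c : (k : Fin r × Fin 4) → Fin (e k + 2) → ℤ) : Prop :=
  ∀ X Y : (p : Nat.Primes) → ℚ_[(p : ℕ)], (∀ p ∈ S, max ‖X p‖ ‖Y p‖ = 1 ∧ PS4 c (X p) (Y p)) →
    ∃ x y : ℤ, 0 < x ∧ (y : ℝ) / x ∈ U ∧ PS4 c (x : ℚ) (y : ℚ) ∧
      ∀ p ∈ S, ‖X p - (x : ℚ_[(p : ℕ)])‖ ≤ (((p : ℕ) : ℝ) ^ N)⁻¹ ∧
        ‖Y p - (y : ℚ_[(p : ℕ)])‖ ≤ (((p : ℕ) : ℝ) ^ N)⁻¹

open Classical in
/-- Part GLUE4: the local points are replaced by one integral point. -/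
def S_GLUE4 : Prop := ∀ (r : ℕ) (e : Fin r × Fin 4 → ℕ), (∀ i l l', e (i, l) % 2 = e (i, l') % 2) →
  ∀ (U : Set ℝ) (S : Finset Nat.Primes) (N W : ℕ) (n : ℕ → ℕ) (M : ℕ),
    M = ∏ p ∈ (Icc 1 W).filter Nat.Prime, p ^ (3 * n p + 14) → (∀ p ∈ S, (p : ℕ) ≤ W) →
    (∀ p, N ≤ n p) → ∀ c : (k : Fin r × Fin 4) → Fin (e k + 2) → ℤ,
    (∀ p : ℕ, p.Prime → p ≤ W → ¬ padBad p (n p) c) → Loc4 U c →
    ∀ X Y : (p : Nat.Primes) → ℚ_[(p : ℕ)], (∀ p ∈ S, max ‖X p‖ ‖Y p‖ = 1 ∧ PS4 c (X p) (Y p)) →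
    ∃ a₀ a₁ : ℤ, (∀ p ∈ S, ‖X p - (a₀ : ℚ_[(p : ℕ)])‖ ≤ (((p : ℕ) : ℝ) ^ N)⁻¹ ∧
        ‖Y p - (a₁ : ℚ_[(p : ℕ)])‖ ≤ (((p : ℕ) : ℝ) ^ N)⁻¹) ∧
      ∀ γ : (k : Fin r × Fin 4) → Fin (e k + 2) → ℤ, (∀ k j, (M : ℤ) ∣ c k j - γ k j) →
        (∀ p : ℕ, p.Prime → p ∣ M → 3 ≤ padicValNat p M ∧
          ∀ k, ¬ ((p : ℤ) ^ (padicValNat p M - 3 + 1) ∣ fm (γ k) a₀ a₁)) ∧
        (∀ (p : ℕ) [Fact p.Prime], p ∣ M → PS4 γ ((a₀ : ℤ) : ℚ_[p]) ((a₁ : ℤ) : ℚ_[p]))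

open Classical in
/-- Part MAINA4: approximation for almost all families with points everywhere locally. -/
def S_MAINA4 : Prop := ∀ (r : ℕ) (e : Fin r × Fin 4 → ℕ), (∀ i l l', e (i, l) % 2 = e (i, l') % 2) →
  ∀ U : Set ℝ, IsOpen U → ∀ (S : Finset Nat.Primes) (N : ℕ) (η : ℝ), 0 < η → ∃ H₀ : ℕ, ∀ H : ℕ,
    H₀ ≤ H → (((BXI e H).filter (fun c => Loc4 U c ∧ ¬ Appr4 U S N c)).card : ℝ) ≤
      η * ((2 * H + 1 : ℕ) : ℝ) ^ ncI e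

open Classical in
/-- Part MAINB4: a positive proportion of the families has points everywhere locally. -/
def S_MAINB4 : Prop := ∀ (r : ℕ) (e : Fin r × Fin 4 → ℕ), ∀ U : Set ℝ, IsOpen U → U.Nonempty →
  ∃ c₀ : ℝ, 0 < c₀ ∧ ∃ H₀ : ℕ, ∀ H : ℕ, H₀ ≤ H →
    c₀ * ((2 * H + 1 : ℕ) : ℝ) ^ ncI e ≤ (((BXI e H).filter (fun c => Loc4 U c)).card : ℝ)

end Pool.Agent.N718.DC
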