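import Mathlib
import Pool.Agent.N718.DC.Stm
import Pool.Agent.N718.DC.Stm2
import Pool.Agent.N75.DC.SW
import Pool.Agent.N80.DC.Lin
import Pool.Agent.N73.DC.Single
import Pool.Agent.N707.DC.PAIR
import Pool.Agent.N767.DC.LOC
import Pool.Agent.N771.DC.VSUM
import Pool.Agent.N383.DC.COMB
import Pool.Agent.N545.DC.BIL
import Pool.Agent.N348.DC.TW
import Pool.Agent.N362.DC.D2
import Pool.Agent.N433.DC.Fix
import Pool.Agent.N749.DC.PTS
import Pool.Agent.N364.DC.AMT
import Pool.Agent.N284.DC.AMT3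
import Pool.Agent.N286.DC.ARI
import Pool.Agent.N907.DC.Cls
import Pool.Agent.N314.DC.PADC
import Pool.Agent.N454.DC.PADT
import Pool.Agent.N322.DC.Ortho
import Pool.Agent.N713.DC.Real
import Pool.Agent.N281.DC.POS
import Pool.Agent.N681.DC.GLUE
import Pool.Agent.N946.DC.MAINB
import Pool.Agent.N477.DC.MAINA

/-!
# Assembly of project DC (helper718)
-/

set_option autoImplicit false

namespace Pool.Agent.N718.DC

theorem sw : S_SW := Pool.Agent.N75.DC.sw_
theorem lin : S_LIN := Pool.Agent.N80.DC.lin_ sw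
theorem single : S_SINGLE := Pool.Agent.N73.DC.single_ lin
theorem pair : S_PAIR := Pool.Agent.N707.DC.pair_ lin
theorem loc : S_LOC := Pool.Agent.N767.DC.loc_ pair single
theorem vsum : S_VSUM := Pool.Agent.N771.DC.vsum_
theorem comb : S_COMB := Pool.Agent.N383.DC.comb_
theorem bil : S_BIL := Pool.Agent.N545.DC.bil_
theorem tw : S_TW := Pool.Agent.N348.DC.tw_ bil
theorem d2 : S_D2 := Pool.Agent.N362.DC.d2_ loc vsum comb
theorem fix' : S_FIX := Pool.Agent.N433.DC.fix_ d2 tw
theorem pts : S_PTS := Pool.Agent.N749.DC.pts_ sw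
theorem amt : S_AMT := Pool.Agent.N364.DC.amt_ fix' pts
theorem amt3 : S_AMT3 := Pool.Agent.N284.DC.amt3_ amt
theorem ari : S_ARI := Pool.Agent.N286.DC.ari_
theorem cls : S_CLS := Pool.Agent.N907.DC.cls_ amt3 ari
theorem padc : S_PADC := Pool.Agent.N314.DC.padc_
theorem padt : S_PADT := Pool.Agent.N454.DC.padt_
theorem ortho : S_ORTHO := Pool.Agent.N322.DC.ortho_
theorem real : S_REAL := Pool.Agent.N713.DC.real_ ortho
theorem pos' : S_POS := Pool.Agent.N281.DC.pos_
theorem glue : S_GLUE := Pool.Agent.N681.DC.glue_ padt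
theorem mainb : S_MAINB := Pool.Agent.N946.DC.mainb_ cls pos'
theorem maina : S_MAINA := Pool.Agent.N477.DC.maina_ cls padc real glue

end Pool.Agent.N718.DC
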