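import Mathlib
import Pool.Agent.N718.DC.All
import Pool.Agent.N718.DC.Stm4
import Pool.Agent.N650.DW.PADW
import Pool.Agent.N265.DW.GLUEW
import Pool.Agent.N91.DW.TRW
import Pool.Agent.N523.DW.RDC
import Pool.Agent.N832.DW.RDW
import Pool.Agent.N323.DW.CWA
import Pool.Agent.N896.DW.MAINW

/-!
# Assembly of project DW (helper718)
-/

set_option autoImplicit false

namespace Pool.Agent.N718.DC

theorem padw : S_PADW := Pool.Agent.N650.DW.padw_
theorem trw : S_TRW := Pool.Agent.N91.DW.trw_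
theorem gluew : S_GLUEW := Pool.Agent.N265.DW.gluew_ padw trw
theorem rdc : S_RDC := Pool.Agent.N523.DW.rdc_
theorem rdw : S_RDW := Pool.Agent.N832.DW.rdw_
theorem cwa : S_CWA := Pool.Agent.N323.DW.cwa_
theorem mainw : S_MAINW := Pool.Agent.N896.DW.mainw_ cls padc rdc rdw gluew trw cwa

end Pool.Agent.N718.DC
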